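import Mathlib
import Pool.Agent.H93.PH.Step

set_option autoImplicit false
set_option linter.unusedSectionVars false

open Filter Topology Set MeasureTheory

namespace Pool.Agent.H93.PH

/-- The bounded part of a hyperplane of `ℝ^(n+1)` lies in the convex hull of `n+1` points. -/
theorem hyperplane_subset_hull {n : ℕ} (u : Euc (n + 1)) (hu : u ≠ 0) (c R : ℝ) :
    ∃ s : Fin (n + 1) → Euc (n + 1), ∀ y : Euc (n + 1), inner ℝ u y = c → ‖y‖ ≤ R →
      y ∈ convexHull ℝ (Set.range s) := by
  have hfr : Fact (Module.finrank ℝ (Euc (n + 1)) = n + 1) := ⟨by simp⟩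
  set b := OrthonormalBasis.fromOrthogonalSpanSingleton (𝕜 := ℝ) n hu with hb
  by_cases hR : 0 ≤ R
  · set C : ℝ := 2 * n * R + 1 with hC
    have hCpos : 0 < C := by positivity
    set v0 : Euc (n + 1) := (c / ‖u‖ ^ 2) • u - R • ∑ j, (b j : Euc (n + 1)) with hv0
    refine ⟨Fin.cons v0 (fun j => v0 + C • (b j : Euc (n + 1))), fun y hy hyR => ?_⟩
    have hnu : ‖u‖ ^ 2 ≠ 0 := by
      have := norm_pos_iff.mpr hu
      positivity
    -- the orthogonal part
    have hz : y - (c / ‖u‖ ^ 2) • u ∈ (ℝ ∙ u)ᗮ := by
      rw [Submodule.mem_orthogonal_singleton_iff_inner_right, inner_sub_right, inner_smul_right,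
        real_inner_self_eq_norm_sq, hy]
      field_simp
      ring
    have hbu : ∀ j, inner ℝ (b j : Euc (n + 1)) u = 0 := by
      intro j
      have := (b j).2
      rw [Submodule.mem_orthogonal_singleton_iff_inner_left] at this
      exact this
    have hrep := b.sum_repr ⟨y - (c / ‖u‖ ^ 2) • u, hz⟩
    have hcoef : ∀ j, b.repr ⟨y - (c / ‖u‖ ^ 2) • u, hz⟩ j = inner ℝ (b j : Euc (n + 1)) y := by
      intro j
      rw [b.repr_apply_apply, Submodule.coe_inner]
      simp only
      rw [inner_sub_right, inner_smul_right, hbu j]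
      ring
    set t : Fin n → ℝ := fun j => inner ℝ (b j : Euc (n + 1)) y with ht
    have htb : ∀ j, |t j| ≤ R := by
      intro j
      have h1 := abs_real_inner_le_norm (b j : Euc (n + 1)) y
      have h2 : ‖(b j : Euc (n + 1))‖ = 1 := b.orthonormal.1 j
      rw [h2, one_mul] at h1
      exact h1.trans hyR
    have hdec : y = (c / ‖u‖ ^ 2) • u + ∑ j, t j • (b j : Euc (n + 1)) := by
      have h1 := congrArg (Subtype.val) hrep
      simp only [hcoef] at h1
      rw [AddSubmonoidClass.coe_finsetSum] at h1
      simp only [Submodule.coe_smul] at h1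
      rw [h1]
      abel
    have hmem : ∀ i, (Fin.cons v0 (fun j => v0 + C • (b j : Euc (n + 1))) : Fin (n + 1) → Euc (n + 1)) i
        ∈ convexHull ℝ (Set.range (Fin.cons v0 (fun j => v0 + C • (b j : Euc (n + 1))) :
          Fin (n + 1) → Euc (n + 1))) := fun i => subset_convexHull ℝ _ (mem_range_self i)
    set w : Fin n → ℝ := fun j => (t j + R) / C with hw
    have hw0 : ∀ j, 0 ≤ w j := fun j => by
      have := (abs_le.mp (htb j)).1
      exact div_nonneg (by linarith) hCpos.le
    have hwsum : ∑ j, w j ≤ 1 := by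
      have h1 : ∀ j, w j ≤ 2 * R / C := fun j => by
        have := (abs_le.mp (htb j)).2
        exact div_le_div_of_nonneg_right (by linarith) hCpos.le
      calc ∑ j, w j ≤ ∑ _j : Fin n, 2 * R / C := Finset.sum_le_sum fun j _ => h1 j
        _ = n * (2 * R / C) := by simp
        _ ≤ 1 := by
          rw [← mul_div_assoc, div_le_one hCpos]
          linarith
    have hconv : Convex ℝ (convexHull ℝ (Set.range (Fin.cons v0 (fun j => v0 + C • (b j : Euc (n + 1))) :
          Fin (n + 1) → Euc (n + 1)))) := convex_convexHull ℝ _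
    have hsum := hconv.sum_mem (t := Finset.univ)
      (w := (Fin.cons (1 - ∑ j, w j) w : Fin (n + 1) → ℝ))
      (z := (Fin.cons v0 (fun j => v0 + C • (b j : Euc (n + 1))) : Fin (n + 1) → Euc (n + 1)))
      (by
        intro i _
        refine Fin.cases ?_ (fun j => ?_) i
        · simp only [Fin.cons_zero]; linarith
        · simp only [Fin.cons_succ]; exact hw0 j)
      (by rw [Fin.sum_univ_succ]; simp)
      (fun i _ => hmem i)
    rw [Fin.sum_univ_succ] at hsum
    simp only [Fin.cons_zero, Fin.cons_succ] at hsum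
    have hfin : (1 - ∑ j, w j) • v0 + ∑ j, w j • (v0 + C • (b j : Euc (n + 1))) = y := by
      have e1 : ∀ j, w j • (v0 + C • (b j : Euc (n + 1)))
          = w j • v0 + (t j • (b j : Euc (n + 1)) + R • (b j : Euc (n + 1))) := by
        intro j
        rw [smul_add, smul_smul, ← add_smul]
        congr 2
        rw [hw]; field_simp
      simp only [e1, Finset.sum_add_distrib, ← Finset.sum_smul, ← Finset.smul_sum]
      rw [sub_smul, one_smul]
      conv_rhs => rw [hdec]
      rw [hv0]
      abel
    rw [hfin] at hsum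
    exact hsum
  · refine ⟨fun _ => 0, fun y _ hyR => ?_⟩
    exact absurd (le_trans (norm_nonneg y) hyR) hR

end Pool.Agent.H93.PH
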