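import Mathlib
import Pool.Agent.H93.PH.Collapse
import Pool.Agent.H93.PH.Hull

set_option autoImplicit false
set_option linter.unusedSectionVars false

open Filter Topology Set MeasureTheory

namespace Pool.Agent.H93.PH

open Pool.Agent.H15

/-- 1-Lipschitz maps of Euclidean space do not increase volume. -/
theorem volume_image_le {d : ℕ} {F : Euc d → Euc d} (hF : LipschitzWith 1 F) (A : Set (Euc d)) :
    volume (F '' A) ≤ volume A := by
  have h : (volume : Measure (Euc d)) = (Measure.euclideanHausdorffMeasure d : Measure (Euc d)) :=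
    (EuclideanSpace.euclideanHausdorffMeasure_eq_volume d).symm
  rw [h, Measure.euclideanHausdorffMeasure_def, Measure.smul_apply, Measure.smul_apply]
  have h1 := hF.hausdorffMeasure_image_le (d := ((d : ℕ) : ℝ)) (by positivity) A
  simp only [ENNReal.coe_one, ENNReal.one_rpow, one_mul] at h1
  gcongr

theorem isClosedMap_of_near {d : ℕ} {F : Euc d → Euc d} (hc : Continuous F) (a : ℝ)
    (hd : ∀ x, ‖x - F x‖ ≤ a) : IsClosedMap F := by
  have h1 : Tendsto F (cocompact (Euc d)) (cocompact (Euc d)) := by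
    rw [← Metric.cobounded_eq_cocompact]
    rw [← tendsto_norm_atTop_iff_cobounded]
    have h2 : ∀ x, ‖x‖ - a ≤ ‖F x‖ := by
      intro x
      have h3 := norm_sub_norm_le x (F x)
      have := hd x
      linarith
    refine tendsto_atTop_mono h2 ?_
    exact tendsto_atTop_add_const_right _ _ tendsto_norm_cobounded_atTop
  exact (isProperMap_iff_tendsto_cocompact.mpr ⟨hc, h1⟩).isClosedMap

/-- preimages of preconnected sets under closed surjective maps with preconnected fibres -/
theorem preconnected_preimage {d : ℕ} {F : Euc d → Euc d} (hcl : IsClosedMap F)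
    (hs : Function.Surjective F) (hfib : ∀ y, IsPreconnected (F ⁻¹' {y})) {S : Set (Euc d)}
    (hS : IsPreconnected S) : IsPreconnected (F ⁻¹' S) := by
  rw [isPreconnected_closed_iff]
  intro t t' ht ht' hsub hne hne'
  rw [isPreconnected_closed_iff] at hS
  obtain ⟨y, hyS, ⟨x, hxt, hxy⟩, ⟨x', hxt', hxy'⟩⟩ := hS (F '' t) (F '' t') (hcl t ht) (hcl t' ht')
    (by
      intro y hy
      obtain ⟨x, rfl⟩ := hs y
      rcases hsub hy with h | h
      · exact Or.inl ⟨x, h, rfl⟩
      · exact Or.inr ⟨x, h, rfl⟩)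
    (by
      obtain ⟨x, hx1, hx2⟩ := hne
      exact ⟨F x, hx1, x, hx2, rfl⟩)
    (by
      obtain ⟨x, hx1, hx2⟩ := hne'
      exact ⟨F x, hx1, x, hx2, rfl⟩)
  have hf := hfib y
  rw [isPreconnected_closed_iff] at hf
  obtain ⟨z, hz1, hz2⟩ := hf t t' ht ht'
    (by
      intro z hz
      apply hsub
      rw [mem_preimage, mem_singleton_iff] at hz
      rw [mem_preimage, hz]
      exact hyS)
    ⟨x, hxy, hxt⟩ ⟨x', hxy', hxt'⟩
  refine ⟨z, ?_, hz2⟩
  rw [mem_preimage, mem_singleton_iff] at hz1
  rw [mem_preimage, hz1]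
  exact hyS

/-- Neighbourhoods of a compact set with null frontier and small excess. -/
theorem exists_nbhd {d : ℕ} (K : Set (Euc d)) (hK : IsCompact K) (κ : ENNReal) (hκ : κ ≠ 0) :
    ∃ W : Set (Euc d), IsOpen W ∧ K ⊆ W ∧ Bornology.IsBounded W ∧ volume (frontier W) = 0 ∧
      volume (W \ K) ≤ κ := by
  have hKfin : volume K ≠ ⊤ := hK.measure_lt_top.ne
  have h2 : Tendsto (fun r => volume (Metric.thickening r K)) (𝓝[>] 0) (𝓝 (volume K)) :=
    tendsto_measure_thickening_of_isClosed
      ⟨1, one_pos, (hK.isBounded.thickening (δ := 1)).measure_lt_top.ne⟩ hK.isClosed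
  have h3 : ∀ᶠ r in 𝓝[>] (0:ℝ), volume (Metric.thickening r K) < volume K + κ :=
    h2.eventually (gt_mem_nhds (ENNReal.lt_add_right hKfin hκ))
  obtain ⟨r0, hr0, hr0'⟩ := (h3.and self_mem_nhdsWithin).exists
  have hr0pos : (0:ℝ) < r0 := hr0'
  obtain ⟨r, hr, hfr⟩ := exists_null_frontier_thickening (volume : Measure (Euc d)) K hr0pos
  have hKW : K ⊆ Metric.thickening r K := Metric.self_subset_thickening hr.1 K
  refine ⟨Metric.thickening r K, Metric.isOpen_thickening, hKW, hK.isBounded.thickening, hfr, ?_⟩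
  have hWvol : volume (Metric.thickening r K) < volume K + κ :=
    lt_of_le_of_lt (measure_mono (Metric.thickening_mono hr.2.le K)) hr0
  rw [measure_sdiff hKW hK.measurableSet.nullMeasurableSet hKfin]
  exact tsub_le_iff_left.mpr hWvol.le

/-- The bounded part of a hyperplane of `ℝ^D` lies in the convex hull of `D` points. -/
theorem hyperplane_subset_hull_of_pos {D : ℕ} (hD : 0 < D) (u : Euc D) (hu : u ≠ 0) (c R : ℝ) :
    ∃ s : Fin D → Euc D, ∀ y : Euc D, inner ℝ u y = c → ‖y‖ ≤ R →
      y ∈ convexHull ℝ (Set.range s) := by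
  obtain ⟨n, rfl⟩ : ∃ n, D = n + 1 := ⟨D - 1, by omega⟩
  exact hyperplane_subset_hull u hu c R

/-- Main theorem: finitely many compact sets of `ℝ^D` are mapped by one contraction close to the
identity onto sets with polyhedral boundary, with arbitrarily small loss of volume. -/
theorem main {D m : ℕ} (hDpos : 0 < D) (K : Fin m → Set (Euc D)) (hK : ∀ i, IsCompact (K i))
    (ε : ℝ) (hε : 0 < ε) :
    ∃ f : Euc D → Euc D, LipschitzWith 1 f ∧ (∀ x, ‖x - f x‖ ≤ ε) ∧ ∀ i,
      (∃ S : Finset (Fin D → Euc D),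
        frontier (f '' (K i)) ⊆ ⋃ s ∈ S, convexHull ℝ (Set.range s)) ∧
      volume (K i) ≤ volume (f '' (K i)) + ENNReal.ofReal ε := by
  classical
  have hDR : (0:ℝ) < D := by exact_mod_cast hDpos
  -- a big ball
  have hUb : Bornology.IsBounded (⋃ i, K i) :=
    (isCompact_iUnion hK).isBounded
  obtain ⟨R, hR⟩ := hUb.subset_closedBall (0 : Euc D)
  set B : Set (Euc D) := Metric.closedBall 0 R with hB
  have hBc : IsCompact B := isCompact_closedBall _ _
  have hBfin : volume B ≠ ⊤ := hBc.measure_lt_top.ne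
  -- the enlargement
  have h1 : ∀ᶠ d in 𝓝 (0:ℝ), volume (Metric.cthickening d B) < volume B + ENNReal.ofReal ε := by
    refine (tendsto_measure_cthickening_of_isCompact hBc).eventually (gt_mem_nhds ?_)
    exact ENNReal.lt_add_right hBfin (by simpa using hε)
  have h1' : ∀ᶠ d in 𝓝 (0:ℝ), d < ε := gt_mem_nhds hε
  obtain ⟨a, ⟨ha, haε⟩, ha0⟩ : ∃ a, (volume (Metric.cthickening a B) < volume B + ENNReal.ofReal ε ∧
      a < ε) ∧ 0 < a :=
    (((h1.and h1').filter_mono nhdsWithin_le_nhds).and
      (self_mem_nhdsWithin (s := Ioi (0:ℝ)))).exists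
  set δ : ℝ := a / (2 * D) with hδdef
  have hδ : 0 < δ := by positivity
  -- the small constant
  set κ : ENNReal := ENNReal.ofReal (δ ^ D / (8 * D) ^ D) with hκdef
  have hκ : κ ≠ 0 := by
    have : (0:ℝ) < δ ^ D / (8 * D) ^ D := by positivity
    simpa [hκdef] using this
  have hκmul : ENNReal.ofReal ((8 * D) ^ D) * κ = ENNReal.ofReal (δ ^ D) := by
    rw [hκdef, ← ENNReal.ofReal_mul (by positivity)]
    congr 1
    field_simp
  -- thickenings of the K i
  have hκm : κ / (m + 1 : ℕ) ≠ 0 := by
    rw [ENNReal.div_ne_zero]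
    exact ⟨hκ, by simp⟩
  choose W hWo hKW hWb hWfr hWvol using fun i => exists_nbhd (K i) (hK i) _ hκm
  set U : Set (Euc D) := ⋃ i, W i \ K i with hU
  have hUo : IsOpen U := isOpen_iUnion fun i => (hWo i).sdiff (hK i).isClosed
  have hUvol : volume U ≤ κ := by
    calc volume U ≤ ∑ i, volume (W i \ K i) := measure_iUnion_fintype_le _ _
      _ ≤ ∑ _i : Fin m, κ / (m + 1 : ℕ) := Finset.sum_le_sum fun i _ => hWvol i
      _ = m * (κ / (m + 1 : ℕ)) := by simp
      _ ≤ (m + 1 : ℕ) * (κ / (m + 1 : ℕ)) := by gcongr; simp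
      _ ≤ κ := ENNReal.mul_div_le
  obtain ⟨F1, hF1, hF1n, hF1s⟩ := collapse_open hDpos U hUo δ hδ (by
    rw [← hκmul]; exact mul_le_mul_right hUvol _)
  -- the frontiers
  have hfrc : IsCompact (⋃ i, frontier (W i)) :=
    isCompact_iUnion fun i => Metric.isCompact_of_isClosed_isBounded isClosed_frontier
      ((hWb i).closure.subset frontier_subset_closure)
  have hL1 : LipschitzWith 1 F1 := hF1.lipschitz
  have hN1c : IsCompact (F1 '' (⋃ i, frontier (W i))) := hfrc.image hL1.continuous
  have hN1v : volume (F1 '' (⋃ i, frontier (W i))) < κ := by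
    refine lt_of_le_of_lt (volume_image_le hL1 _) ?_
    have : volume (⋃ i, frontier (W i)) = 0 := measure_iUnion_null hWfr
    rw [this]
    exact pos_iff_ne_zero.mpr hκ
  obtain ⟨O, hOsub, hOo, hOv⟩ := Set.exists_isOpen_lt_of_lt _ _ hN1v
  obtain ⟨ρ, hρ, hρsub⟩ := hN1c.exists_cthickening_subset_open hOo hOsub
  obtain ⟨F2, hF2, hF2n, hF2s, L, hL0, hL⟩ := collapse hDpos O δ (ρ / 2) hδ (by positivity) (by
    rw [← hκmul]; exact mul_le_mul_right hOv.le _)
  have hL2 : LipschitzWith 1 F2 := hF2.lipschitz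
  have hF1surj : Function.Surjective F1 := fun y => by
    obtain ⟨x, hx, _⟩ := hF1s y
    exact ⟨x, hx⟩
  have hF2surj : Function.Surjective F2 := fun y => by
    obtain ⟨x, hx, _⟩ := hF2s y
    exact ⟨x, hx⟩
  set F : Euc D → Euc D := fun x => F2 (F1 x) with hF
  have hFL : LipschitzWith 1 F := by
    have := hL2.comp hL1
    rw [one_mul] at this
    exact this
  have hFn : ∀ x, ‖x - F x‖ ≤ a := by
    intro x
    have e1 := hF1n x
    have e2 := hF2n (F1 x)
    have e3 : x - F x = (x - F1 x) + (F1 x - F2 (F1 x)) := by simp [hF]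
    rw [e3]
    have e4 := norm_add_le (x - F1 x) (F1 x - F2 (F1 x))
    have e5 : (D:ℝ) * δ + D * δ = a := by rw [hδdef]; field_simp; ring
    linarith
  set G : Set (Euc D) := {y | ∃ l ∈ L, inner ℝ l.1 y = l.2} with hG
  have hGclosed : IsClosed G := by
    have : G = ⋃ l ∈ L, {y : Euc D | inner ℝ l.1 y = l.2} := by
      ext y; simp [hG]
    rw [this]
    refine Set.Finite.isClosed_biUnion L.finite_toSet fun l _ => ?_
    exact isClosed_eq (by fun_prop) continuous_const
  refine ⟨F, hFL, fun x => (hFn x).trans haε.le, fun i => ?_⟩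
  -- the frontier of W i goes to finitely many hyperplanes
  have hfrL : ∀ x ∈ frontier (W i), F x ∈ G := by
    intro x hx
    apply hL
    have : Metric.closedBall (F1 x) (2 * (ρ / 2)) ⊆
        Metric.cthickening ρ (F1 '' (⋃ i, frontier (W i))) := by
      have e : 2 * (ρ / 2) = ρ := by ring
      rw [e]
      exact Metric.closedBall_subset_cthickening
        (mem_image_of_mem F1 (mem_iUnion.mpr ⟨i, hx⟩)) ρ
    exact this.trans hρsub
  have hFKc : IsCompact (F '' K i) := (hK i).image hFL.continuous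
  -- the frontier of the image lies in G
  have hfront : frontier (F '' K i) ⊆ G := by
    intro y hy
    by_contra hyG
    have hyK : y ∈ F '' K i := hFKc.isClosed.frontier_subset hy
    obtain ⟨x0, hx0K, hx0y⟩ := hyK
    obtain ⟨s, hs, hsub⟩ := Metric.isOpen_iff.mp hGclosed.isOpen_compl y hyG
    have hpre1 : IsPreconnected (F2 ⁻¹' Metric.ball y s) :=
      preconnected_preimage (isClosedMap_of_near hL2.continuous _ hF2n) hF2surj
        (fun z => (hF2.convex_fiber z).isPreconnected) (convex_ball y s).isPreconnected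
    have hpre : IsPreconnected (F1 ⁻¹' (F2 ⁻¹' Metric.ball y s)) :=
      preconnected_preimage (isClosedMap_of_near hL1.continuous _ hF1n) hF1surj
        (fun z => (hF1.convex_fiber z).isPreconnected) hpre1
    have hsubW : F1 ⁻¹' (F2 ⁻¹' Metric.ball y s) ⊆ W i := by
      refine hpre.subset_of_closure_inter_subset (hWo i) ⟨x0, ?_, hKW i hx0K⟩ ?_
      · show F2 (F1 x0) ∈ Metric.ball y s
        have : F2 (F1 x0) = y := hx0y
        rw [this]
        exact Metric.mem_ball_self hs
      · rintro z ⟨hz1, hz2⟩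
        by_contra hzW
        have hzf : z ∈ frontier (W i) := by
          rw [(hWo i).frontier_eq]
          exact ⟨hz1, hzW⟩
        exact hsub hz2 (hfrL z hzf)
    have hball : Metric.ball y s ⊆ F '' K i := by
      intro y' hy'
      obtain ⟨u, hu⟩ := hF2surj y'
      obtain ⟨x, hx, hxU⟩ := hF1s u
      have hxW : x ∈ W i := by
        apply hsubW
        show F2 (F1 x) ∈ Metric.ball y s
        rw [hx, hu]
        exact hy'
      have hxK : x ∈ K i := by
        by_contra hxK
        exact hxU (mem_iUnion.mpr ⟨i, hxW, hxK⟩)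
      exact ⟨x, hxK, by simp only [hF]; rw [hx, hu]⟩
    have hint : y ∈ interior (F '' K i) := by
      rw [mem_interior]
      exact ⟨_, hball, Metric.isOpen_ball, Metric.mem_ball_self hs⟩
    rw [frontier, Set.mem_sdiff] at hy
    exact hy.2 hint
  refine ⟨?_, ?_⟩
  · -- from hyperplanes to simplices
    obtain ⟨R', hR'⟩ := hFKc.isBounded.subset_closedBall (0 : Euc D)
    have hseg : ∀ l : Euc D × ℝ, ∃ s : Fin D → Euc D, l ∈ L →
        ∀ y : Euc D, inner ℝ l.1 y = l.2 → ‖y‖ ≤ R' → y ∈ convexHull ℝ (Set.range s) := by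
      intro l
      by_cases hl : l ∈ L
      · obtain ⟨s, hs⟩ := hyperplane_subset_hull_of_pos hDpos l.1 (hL0 l hl) l.2 R'
        exact ⟨s, fun _ => hs⟩
      · exact ⟨fun _ => 0, fun h => absurd h hl⟩
    choose sg hsg using hseg
    refine ⟨L.image sg, fun y hy => ?_⟩
    obtain ⟨l, hl, hly⟩ := hfront hy
    have hyR : ‖y‖ ≤ R' := by
      have := hR' (hFKc.isClosed.frontier_subset hy)
      rwa [mem_closedBall_zero_iff] at this
    simp only [mem_iUnion, Finset.mem_image]
    exact ⟨sg l, ⟨l, hl, rfl⟩, hsg l hl y hly hyR⟩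
  · -- volume
    set B' : Set (Euc D) := Metric.cthickening a B with hB'
    have hKB : K i ⊆ B := (subset_iUnion K i).trans hR
    have hKB' : K i ⊆ B' := hKB.trans (Metric.self_subset_cthickening B)
    have hcov : B ⊆ F '' K i ∪ F '' (B' \ K i) := by
      intro y hy
      obtain ⟨u, hu⟩ := hF2surj y
      obtain ⟨x, hx⟩ := hF1surj u
      have hxy : F x = y := by simp only [hF]; rw [hx, hu]
      have hxB' : x ∈ B' := by
        refine Metric.mem_cthickening_of_dist_le x y a B hy ?_
        rw [dist_eq_norm, ← hxy]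
        exact hFn x
      by_cases hxK : x ∈ K i
      · exact Or.inl ⟨x, hxK, hxy⟩
      · exact Or.inr ⟨x, ⟨hxB', hxK⟩, hxy⟩
    have e1 : volume B ≤ volume (F '' K i) + volume (B' \ K i) :=
      calc volume B ≤ volume (F '' K i ∪ F '' (B' \ K i)) := measure_mono hcov
        _ ≤ volume (F '' K i) + volume (F '' (B' \ K i)) := measure_union_le _ _
        _ ≤ volume (F '' K i) + volume (B' \ K i) :=
            add_le_add_right (volume_image_le hFL _) _
    have e2 : volume (B' \ K i) + volume (K i) = volume B' := by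
      rw [add_comm, measure_add_sdiff (hK i).measurableSet.nullMeasurableSet,
        union_eq_right.mpr hKB']
    have e3 : volume B' ≤ volume B + ENNReal.ofReal ε := ha.le
    -- conclude
    have hB'fin : volume (B' \ K i) ≠ ⊤ := by
      have : volume (B' \ K i) ≤ volume B' := measure_mono sdiff_subset
      exact ne_top_of_le_ne_top (ne_top_of_le_ne_top (by finiteness) e3) this
    have e4 : volume (B' \ K i) + volume (K i)
        ≤ volume (B' \ K i) + (volume (F '' K i) + ENNReal.ofReal ε) := by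
      rw [e2]
      calc volume B' ≤ volume B + ENNReal.ofReal ε := e3
        _ ≤ (volume (F '' K i) + volume (B' \ K i)) + ENNReal.ofReal ε := by gcongr
        _ = _ := by ring
    exact (ENNReal.add_le_add_iff_left hB'fin).mp e4

end Pool.Agent.H93.PH
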