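import Mathlib
import Pool.Agent.H93.PH.Collapse

set_option autoImplicit false
set_option linter.unusedSectionVars false

open Filter Topology Set MeasureTheory

namespace Pool.Agent.H93.PH

open Pool.Agent.H15

/-- Potentials with the Hall property for all sets of columns. -/
theorem exists_potential_hall {ι κ : Type*} [Fintype ι] [Nonempty ι] [Fintype κ] [Nonempty κ]
    (a : κ → ι → ℝ) :
    ∃ η : ι → ℝ, ∀ J : Finset ι, Fintype.card κ * J.card ≤
      Fintype.card ι * Nat.card {k : κ // ∃ i ∈ J, ∀ j, a k j - η j ≤ a k i - η i} := by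
  classical
  obtain ⟨η, hη⟩ := exists_min_Phi a
  refine ⟨η, fun J => ?_⟩
  set P : κ → Prop := fun k => ∃ i ∈ J, ∀ j, a k j - η j ≤ a k i - η i with hP
  -- small t
  have hev : ∀ᶠ t : ℝ in 𝓝[>] 0, ∀ k, P k ∨
      ∀ i ∈ J, a k i - η i + t ≤ rowMax a η k := by
    rw [eventually_all]
    intro k
    by_cases hk : P k
    · exact Eventually.of_forall fun t => Or.inl hk
    · have h1 : ∀ i ∈ J, ∀ᶠ t : ℝ in 𝓝[>] 0, a k i - η i + t ≤ rowMax a η k := by
        intro i hi
        have hk2 : ¬ ∀ j, a k j - η j ≤ a k i - η i := fun h => hk ⟨i, hi, h⟩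
        push Not at hk2
        obtain ⟨j, hj⟩ := hk2
        have h1 := le_rowMax a η k j
        have h2 : (0:ℝ) < rowMax a η k - (a k i - η i) := by linarith
        have h3 : ∀ᶠ t : ℝ in 𝓝[>] 0, t < rowMax a η k - (a k i - η i) :=
          nhdsWithin_le_nhds (gt_mem_nhds h2)
        filter_upwards [h3] with t ht
        linarith
      have h2 : ∀ᶠ t : ℝ in 𝓝[>] 0, ∀ i ∈ J, a k i - η i + t ≤ rowMax a η k :=
        (Finset.eventually_all J).mpr h1
      filter_upwards [h2] with t ht
      exact Or.inr ht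
  obtain ⟨t, ht, ht0⟩ := (hev.and self_mem_nhdsWithin).exists
  have ht0' : (0:ℝ) < t := ht0
  set η' : ι → ℝ := fun i => η i - (if i ∈ J then t else 0) with hη'
  have hmax : ∀ k, rowMax a η' k ≤ rowMax a η k + (if P k then t else 0) := by
    intro k
    refine rowMax_le _ _ _ _ fun j => ?_
    have h1 := le_rowMax a η k j
    by_cases hjJ : j ∈ J
    · simp only [hη', if_pos hjJ]
      by_cases hk : P k
      · rw [if_pos hk]; linarith
      · rw [if_neg hk]
        rcases ht k with h | h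
        · exact absurd h hk
        · have := h j hjJ; linarith
    · simp only [hη', if_neg hjJ]
      split_ifs <;> linarith
  have hsum : ∑ k, rowMax a η' k ≤ ∑ k, rowMax a η k +
      (Nat.card {k : κ // P k} : ℝ) * t := by
    calc ∑ k, rowMax a η' k ≤ ∑ k, (rowMax a η k + (if P k then t else 0)) :=
          Finset.sum_le_sum fun k _ => hmax k
      _ = _ := by
          rw [Finset.sum_add_distrib, ← Finset.sum_filter, Finset.sum_const, nsmul_eq_mul,
            Nat.card_eq_fintype_card, Fintype.card_subtype]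
  have hsum2 : ∑ j, η' j = ∑ j, η j - J.card * t := by
    simp only [hη', Finset.sum_sub_distrib]
    rw [Finset.sum_ite_mem, Finset.univ_inter, Finset.sum_const, nsmul_eq_mul]
  have h := hη η'
  unfold Phi at h
  rw [hsum2] at h
  have hM : (0:ℝ) < Fintype.card ι := by exact_mod_cast Fintype.card_pos
  have h2 := mul_le_mul_of_nonneg_left hsum hM.le
  have h3 : ((Fintype.card κ : ℝ) * J.card) * t
      ≤ (Fintype.card ι * (Nat.card {k : κ // P k} : ℝ)) * t := by nlinarith
  have h4 := le_of_mul_le_mul_right h3 ht0'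
  exact_mod_cast h4

/-- The finite prox map with its contact inequality. -/
theorem contact_step {d : ℕ} {ι κ : Type*} [Fintype ι] [Nonempty ι] [Fintype κ] [Nonempty κ]
    (X : ι → Euc d) (Q : κ → Euc d) (δ : ℝ) (hQ : ∀ k, ‖Q k‖ ≤ δ) :
    ∃ (F : Euc d → Euc d) (own : κ → ι → Prop), FNE F ∧ (∀ x, ‖x - F x‖ ≤ δ) ∧
      (∀ y, ∃ x, F x = y ∧ ∀ k i, own k i →
        ‖Q k - (x - y)‖ ^ 2 / 2 ≤ inner ℝ (Q k - (x - y)) (X i - x)) ∧
      ∀ J : Finset ι, Fintype.card κ * J.card ≤
        Fintype.card ι * Nat.card {k : κ // ∃ i ∈ J, own k i} := by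
  classical
  obtain ⟨η, hη⟩ := exists_potential_hall (fun (k : κ) (i : ι) => inner ℝ (Q k) (X i))
  set c : κ → ℝ :=
    fun k => - rowMax (fun (k : κ) (i : ι) => inner ℝ (Q k) (X i)) η k with hc
  set c' : κ → ℝ := fun k => c k + ‖Q k‖ ^ 2 / 2 with hc'
  choose F hF using fun x => exists_isProx Q c' x
  refine ⟨F, fun k i => ∀ j, inner ℝ (Q k) (X j) - η j ≤ inner ℝ (Q k) (X i) - η i,
    fun x y => (hF x).firm (hF y), fun x => (hF x).norm_sub_le hQ, fun y => ?_, hη⟩
  obtain ⟨k0, hk0⟩ := exists_eq_maxAff Q c' y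
  refine ⟨y + Q k0, ?_, ?_⟩
  · have h1 := (hF (y + Q k0)).firm (IsProx.of_eq hk0)
    rw [sub_self, inner_zero_right] at h1
    have h2 : ‖F (y + Q k0) - y‖ = 0 := by
      have := norm_nonneg (F (y + Q k0) - y)
      nlinarith
    exact sub_eq_zero.mp (norm_eq_zero.mp h2)
  · intro k i hk
    rw [add_sub_cancel_left]
    have h1 := le_maxAff Q c' y k
    rw [hk0] at h1
    simp only [hc'] at h1
    have h2 : - c k ≤ inner ℝ (Q k) (X i) - η i := by
      simp only [hc, neg_neg]
      exact rowMax_le _ _ _ _ hk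
    have h3 : inner ℝ (Q k0) (X i) - η i ≤ - c k0 := by
      simp only [hc, neg_neg]
      exact le_rowMax (fun (k : κ) (i : ι) => inner ℝ (Q k) (X i)) η k0 i
    have e1 : inner ℝ (Q k - Q k0) (X i - (y + Q k0)) =
        inner ℝ (Q k) (X i) - inner ℝ (Q k0) (X i) - inner ℝ (Q k) y - inner ℝ (Q k) (Q k0)
          + inner ℝ (Q k0) y + ‖Q k0‖ ^ 2 := by
      rw [inner_sub_left, inner_sub_right, inner_sub_right, inner_add_right, inner_add_right,
        real_inner_self_eq_norm_sq]
      ring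
    rw [e1, norm_sub_sq_real]
    linarith

end Pool.Agent.H93.PH
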