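import Mathlib
import Pool.Agent.H93.PH.Hall

set_option autoImplicit false
set_option linter.unusedSectionVars false

open Filter Topology Set MeasureTheory

namespace Pool.Agent.H93.PH

open Pool.Agent.H15

theorem card_mul_le_volume {d : ℕ} (h : ℝ) (hh : 0 < h) (V : Set (Euc d)) (s : Finset (Fin d → ℤ))
    (hs : ∀ k ∈ s, cell h k ⊆ V) : (s.card : ENNReal) * ENNReal.ofReal (h ^ d) ≤ volume V := by
  have h1 : ∑ k ∈ s, volume (cell h k) ≤ volume V := by
    rw [← measure_biUnion_finset]
    · apply measure_mono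
      intro x hx
      simp only [mem_iUnion] at hx
      obtain ⟨k, hk, hxk⟩ := hx
      exact hs k hk hxk
    · intro k _ l _ hkl
      exact cell_disjoint h hh hkl
    · intro k _
      exact measurableSet_cell h k
  simpa only [volume_cell h hh, Finset.sum_const, nsmul_eq_mul] using h1

theorem finite_of_volume {d : ℕ} (h : ℝ) (hh : 0 < h) (V : Set (Euc d)) (hV : volume V ≠ ⊤)
    (A : Set (Fin d → ℤ)) (hA : ∀ k ∈ A, cell h k ⊆ V) : A.Finite := by
  by_contra hinf
  have hv : ENNReal.ofReal (h ^ d) ≠ 0 := by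
    have : 0 < h ^ d := by positivity
    simpa using this
  obtain ⟨n, hn⟩ := ENNReal.exists_nat_mul_gt hv hV
  obtain ⟨s, hs1, hs2⟩ := Set.Infinite.exists_subset_card_eq hinf n
  have h1 := card_mul_le_volume h hh V s (fun k hk => hA k (hs1 hk))
  rw [hs2] at h1
  exact absurd hn (not_lt.mpr h1)

/-- The prox map at scale `h` with its contact and Hall inequalities. -/
theorem scale {d : ℕ} (U : Set (Euc d)) (hUfin : volume U ≠ ⊤) (δ h : ℝ) (hh : 0 < h)
    (hne : ∃ l : Fin d → ℤ, Metric.closedBall (center h l) (d * h) ⊆ U)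
    (hne' : ∃ k : Fin d → ℤ, ‖center h k‖ ≤ δ) :
    ∃ (F : Euc d → Euc d) (own : (Fin d → ℤ) → (Fin d → ℤ) → Prop),
      FNE F ∧ (∀ x, ‖x - F x‖ ≤ δ) ∧
      (∀ y, ∃ x, F x = y ∧ ∀ k l, own k l →
        ‖center h k - (x - y)‖ ^ 2 / 2 ≤ inner ℝ (center h k - (x - y)) (center h l - x)) ∧
      (∀ k l, own k l → ‖center h k‖ ≤ δ) ∧
      ∀ J : Finset (Fin d → ℤ), (∀ l ∈ J, Metric.closedBall (center h l) (d * h) ⊆ U) →
        ∃ S : Finset (Fin d → ℤ), (∀ k ∈ S, ∃ l ∈ J, own k l) ∧
          volume (Metric.ball (0 : Euc d) (δ - d * h)) * ((J.card : ENNReal) * ENNReal.ofReal (h ^ d))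
            ≤ volume U * ((S.card : ENNReal) * ENNReal.ofReal (h ^ d)) := by
  classical
  set I : Set (Fin d → ℤ) := {l | Metric.closedBall (center h l) (d * h) ⊆ U} with hI
  set A : Set (Fin d → ℤ) := {k | ‖center h k‖ ≤ δ} with hA
  have hIcell : ∀ l ∈ I, cell h l ⊆ U := fun l hl x hx => hl (cell_subset h hh l hx)
  have hIfin : I.Finite := finite_of_volume h hh U hUfin I hIcell
  have hAfin : A.Finite := by
    refine finite_of_volume h hh (Metric.closedBall (0 : Euc d) (δ + d * h))
      (isCompact_closedBall _ _).measure_lt_top.ne A fun k hk x hx => ?_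
    have h1 := cell_subset h hh k hx
    rw [Metric.mem_closedBall, dist_eq_norm] at h1
    rw [mem_closedBall_zero_iff]
    have h2 : x = center h k + (x - center h k) := by abel
    have h3 := norm_add_le (center h k) (x - center h k)
    rw [← h2] at h3
    have h4 : ‖center h k‖ ≤ δ := hk
    linarith
  have : Fintype I := hIfin.fintype
  have : Fintype A := hAfin.fintype
  obtain ⟨l0, hl0⟩ := hne
  obtain ⟨k0, hk0⟩ := hne'
  have : Nonempty I := ⟨⟨l0, hl0⟩⟩
  have : Nonempty A := ⟨⟨k0, hk0⟩⟩
  obtain ⟨F, own', hF1, hF2, hF3, hF4⟩ :=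
    contact_step (fun l : I => center h l.1) (fun k : A => center h k.1) δ (fun k => k.2)
  refine ⟨F, fun k l => ∃ (hk : k ∈ A) (hl : l ∈ I), own' ⟨k, hk⟩ ⟨l, hl⟩, hF1, hF2,
    fun y => ?_, fun k l h => h.1, fun J hJ => ?_⟩
  · obtain ⟨x, hx1, hx2⟩ := hF3 y
    refine ⟨x, hx1, ?_⟩
    rintro k l ⟨hk, hl, hkl⟩
    exact hx2 ⟨k, hk⟩ ⟨l, hl⟩ hkl
  · set J' : Finset I := J.subtype (· ∈ I) with hJ'
    have hJ2 : ∀ x ∈ J, x ∈ I := hJ
    have hJcard : J'.card = J.card := by
      rw [hJ', Finset.card_subtype, Finset.filter_true_of_mem hJ2]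
    set S' : Finset A := Finset.univ.filter (fun k : A => ∃ i ∈ J', own' k i) with hS'
    set S : Finset (Fin d → ℤ) := S'.image Subtype.val with hS
    have hScard : S.card = S'.card := Finset.card_image_of_injective _ Subtype.val_injective
    refine ⟨S, ?_, ?_⟩
    · intro k hk
      rw [hS, Finset.mem_image] at hk
      obtain ⟨k', hk', rfl⟩ := hk
      rw [hS', Finset.mem_filter] at hk'
      obtain ⟨_, i, hi, hown⟩ := hk'
      rw [hJ', Finset.mem_subtype] at hi
      exact ⟨i.1, hi, k'.2, i.2, hown⟩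
    · have hall := hF4 J'
      have hcardS : Nat.card {k : A // ∃ i ∈ J', own' k i} = S.card := by
        rw [Nat.card_eq_fintype_card, Fintype.card_subtype, ← hS', hScard]
      rw [hcardS, hJcard] at hall
      set v : ENNReal := ENNReal.ofReal (h ^ d) with hv
      have hM : (Fintype.card I : ENNReal) * v ≤ volume U := by
        have := card_mul_le_volume h hh U hIfin.toFinset (fun k hk => hIcell k (by simpa using hk))
        rwa [Set.Finite.card_toFinset] at this
      have hN : volume (Metric.ball (0 : Euc d) (δ - d * h)) ≤ (Fintype.card A : ENNReal) * v := by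
        have hcov : Metric.ball (0 : Euc d) (δ - d * h) ⊆ ⋃ k ∈ hAfin.toFinset, cell h k := by
          intro x hx
          rw [mem_ball_zero_iff] at hx
          obtain ⟨k, hk⟩ := exists_cell h hh x
          have h1 := cell_subset h hh k hk
          rw [Metric.mem_closedBall, dist_eq_norm] at h1
          have h2 : center h k = x - (x - center h k) := by abel
          have h3 := norm_sub_le x (x - center h k)
          rw [← h2] at h3
          have hkA : k ∈ A := by
            show ‖center h k‖ ≤ δ
            linarith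
          simp only [mem_iUnion]
          exact ⟨k, by simpa using hkA, hk⟩
        refine (measure_mono hcov).trans ((measure_biUnion_finset_le _ _).trans ?_)
        simp only [volume_cell h hh, Finset.sum_const, nsmul_eq_mul, ← hv]
        rw [Set.Finite.card_toFinset]
      calc volume (Metric.ball (0 : Euc d) (δ - d * h)) * ((J.card : ENNReal) * v)
          ≤ ((Fintype.card A : ENNReal) * v) * ((J.card : ENNReal) * v) := by gcongr
        _ = ((Fintype.card A * J.card : ℕ) : ENNReal) * (v * v) := by push_cast; ring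
        _ ≤ ((Fintype.card I * S.card : ℕ) : ENNReal) * (v * v) := by gcongr
        _ = ((Fintype.card I : ENNReal) * v) * ((S.card : ENNReal) * v) := by push_cast; ring
        _ ≤ volume U * ((S.card : ENNReal) * v) := by gcongr

end Pool.Agent.H93.PH
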