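import Mathlib
import Pool.Agent.H93.PH.Scale

set_option autoImplicit false
set_option linter.unusedSectionVars false

open Filter Topology Set MeasureTheory

namespace Pool.Agent.H93.PH

open Pool.Agent.H15

theorem exists_ultra_limit {d : ℕ} (𝒰 : Ultrafilter ℕ) (u : ℕ → Euc d) (K : Set (Euc d))
    (hK : IsCompact K) (hu : ∀ᶠ m in (𝒰 : Filter ℕ), u m ∈ K) :
    ∃ l ∈ K, Tendsto u 𝒰 (𝓝 l) := by
  have hmem : ((𝒰.map u : Ultrafilter (Euc d)) : Filter (Euc d)) ≤ 𝓟 K := by
    rw [le_principal_iff]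
    exact hu
  obtain ⟨l, hlK, hl⟩ := hK.ultrafilter_le_nhds _ hmem
  exact ⟨l, hlK, hl⟩

/-- The limit of the ownership relations along an ultrafilter. -/
def limRel {d : ℕ} (𝒰 : Ultrafilter ℕ) (h : ℕ → ℝ)
    (own : ℕ → (Fin d → ℤ) → (Fin d → ℤ) → Prop) : Set (Euc d × Euc d) :=
  {z | ∀ ε > 0, ∀ᶠ m in (𝒰 : Filter ℕ), ∃ k l, own m k l ∧
    dist (center (h m) l) z.1 < ε ∧ dist (center (h m) k) z.2 < ε}

theorem isClosed_limRel {d : ℕ} (𝒰 : Ultrafilter ℕ) (h : ℕ → ℝ)
    (own : ℕ → (Fin d → ℤ) → (Fin d → ℤ) → Prop) : IsClosed (limRel 𝒰 h own) := by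
  refine isClosed_of_closure_subset fun z hz ε hε => ?_
  rw [Metric.mem_closure_iff] at hz
  obtain ⟨z', hz', hd⟩ := hz (ε / 2) (by positivity)
  rw [Prod.dist_eq, max_lt_iff] at hd
  filter_upwards [hz' (ε / 2) (by positivity)] with m hm
  obtain ⟨k, l, h1, h2, h3⟩ := hm
  refine ⟨k, l, h1, ?_, ?_⟩
  · have := dist_triangle (center (h m) l) z'.1 z.1
    rw [dist_comm z'.1] at this
    linarith
  · have := dist_triangle (center (h m) k) z'.2 z.2
    rw [dist_comm z'.2] at this
    linarith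

/-- The Hall inequality passes to the limit. -/
theorem limRel_volume {d : ℕ} (𝒰 : Ultrafilter ℕ) (h𝒰 : (𝒰 : Filter ℕ) ≤ atTop) (h : ℕ → ℝ)
    (hpos : ∀ m, 0 < h m) (hlim : Tendsto h atTop (𝓝 0))
    (own : ℕ → (Fin d → ℤ) → (Fin d → ℤ) → Prop) (U : Set (Euc d)) (hU : IsOpen U)
    (hUfin : volume U ≠ ⊤) (δ : ℝ) (hδ : 0 < δ)
    (hown : ∀ m k l, own m k l → ‖center (h m) k‖ ≤ δ)
    (hall : ∀ m, ∀ J : Finset (Fin d → ℤ),
      (∀ l ∈ J, Metric.closedBall (center (h m) l) (d * h m) ⊆ U) →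
        ∃ S : Finset (Fin d → ℤ), (∀ k ∈ S, ∃ l ∈ J, own m k l) ∧
          volume (Metric.ball (0 : Euc d) (δ - d * h m))
            * ((J.card : ENNReal) * ENNReal.ofReal (h m ^ d))
            ≤ volume U * ((S.card : ENNReal) * ENNReal.ofReal (h m ^ d)))
    (E : Set (Euc d)) (hE : IsCompact E) (hEU : E ⊆ U) :
    volume (Metric.ball (0 : Euc d) δ) * volume E ≤
      volume U * volume (Prod.snd '' (limRel 𝒰 h own ∩ (E ×ˢ Metric.closedBall 0 δ))) := by
  classical
  set Γ := limRel 𝒰 h own with hΓ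
  set S : Set (Euc d) := Prod.snd '' (Γ ∩ (E ×ˢ Metric.closedBall 0 δ)) with hS
  have hScomp : IsCompact S := by
    refine IsCompact.image ?_ continuous_snd
    exact (hE.prod (isCompact_closedBall _ _)).inter_left (isClosed_limRel 𝒰 h own)
  have hdh : Tendsto (fun m => (d:ℝ) * h m) atTop (𝓝 0) := by
    have := hlim.const_mul (d:ℝ)
    rwa [mul_zero] at this
  -- the estimate for each ε
  have key : ∀ ε > 0, volume (Metric.ball (0 : Euc d) (δ - ε)) * volume E
      ≤ volume U * volume (Metric.cthickening ε S) := by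
    intro ε hε
    -- Claim A
    have hA : ∀ᶠ m in (𝒰 : Filter ℕ), ∀ k l, own m k l →
        (∃ e ∈ E, dist (center (h m) l) e ≤ d * h m) →
        ∃ s ∈ S, dist (center (h m) k) s < ε / 2 := by
      by_contra hcon
      rw [← Ultrafilter.eventually_not] at hcon
      have hgood : ∀ᶠ m in (𝒰 : Filter ℕ), ∃ (p X e : Euc d), (∃ k l, own m k l ∧
          p = center (h m) k ∧ X = center (h m) l) ∧ e ∈ E ∧ dist X e ≤ d * h m ∧
          ∀ s ∈ S, ε / 2 ≤ dist p s := by
        filter_upwards [hcon] with m hm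
        push Not at hm
        obtain ⟨k, l, h1, ⟨e, he, hde⟩, h2⟩ := hm
        exact ⟨_, _, e, ⟨k, l, h1, rfl, rfl⟩, he, hde, h2⟩
      have hch : ∀ m, ∃ q : Euc d × Euc d × Euc d, (∃ (p X e : Euc d), (∃ k l, own m k l ∧
          p = center (h m) k ∧ X = center (h m) l) ∧ e ∈ E ∧ dist X e ≤ d * h m ∧
          ∀ s ∈ S, ε / 2 ≤ dist p s) → ((∃ k l, own m k l ∧
          q.1 = center (h m) k ∧ q.2.1 = center (h m) l) ∧ q.2.2 ∈ E ∧ dist q.2.1 q.2.2 ≤ d * h m ∧
          ∀ s ∈ S, ε / 2 ≤ dist q.1 s) := by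
        intro m
        by_cases hm : ∃ (p X e : Euc d), (∃ k l, own m k l ∧
          p = center (h m) k ∧ X = center (h m) l) ∧ e ∈ E ∧ dist X e ≤ d * h m ∧
          ∀ s ∈ S, ε / 2 ≤ dist p s
        · obtain ⟨p, X, e, hq⟩ := hm
          exact ⟨(p, X, e), fun _ => hq⟩
        · exact ⟨0, fun h => absurd h hm⟩
      choose q hq using hch
      have hq' := hgood.mono fun m hm => hq m hm
      obtain ⟨p, hp, hpl⟩ := exists_ultra_limit 𝒰 (fun m => (q m).1) (Metric.closedBall 0 δ)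
        (isCompact_closedBall _ _) (by
          filter_upwards [hq'] with m hm
          obtain ⟨⟨k, l, h1, h2, _⟩, _⟩ := hm
          rw [mem_closedBall_zero_iff, h2]
          exact hown m k l h1)
      obtain ⟨e, he, hel⟩ := exists_ultra_limit 𝒰 (fun m => (q m).2.2) E hE
        (by filter_upwards [hq'] with m hm using hm.2.1)
      have hmem : (e, p) ∈ Γ := by
        intro ε2 hε2
        have e1 : ∀ᶠ m in (𝒰 : Filter ℕ), dist (q m).1 p < ε2 :=
          hpl.eventually (Metric.ball_mem_nhds p hε2)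
        have e2 : ∀ᶠ m in (𝒰 : Filter ℕ), dist (q m).2.2 e < ε2 / 2 :=
          hel.eventually (Metric.ball_mem_nhds e (by positivity))
        have e3 : ∀ᶠ m in (𝒰 : Filter ℕ), (d:ℝ) * h m < ε2 / 2 :=
          h𝒰 (hdh.eventually (gt_mem_nhds (by positivity)))
        filter_upwards [hq', e1, e2, e3] with m hm h1 h2 h3
        obtain ⟨⟨k, l, hkl, hk, hl⟩, _, hX, _⟩ := hm
        refine ⟨k, l, hkl, ?_, ?_⟩
        · rw [← hl]
          have := dist_triangle (q m).2.1 (q m).2.2 e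
          linarith
        · rw [← hk]; exact h1
      have hpS : p ∈ S := ⟨(e, p), ⟨hmem, he, hp⟩, rfl⟩
      have e1 : ∀ᶠ m in (𝒰 : Filter ℕ), dist (q m).1 p < ε / 2 :=
        hpl.eventually (Metric.ball_mem_nhds p (by positivity))
      obtain ⟨m, hm1, hm2⟩ := (hq'.and e1).exists
      have := hm1.2.2.2 p hpS
      linarith
    -- Claim B
    obtain ⟨ρ, hρ, hρU⟩ := hE.exists_cthickening_subset_open hU hEU
    have hB : ∀ᶠ m in (𝒰 : Filter ℕ), (d:ℝ) * h m < min (ε / 2) (ρ / 2) :=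
      h𝒰 (hdh.eventually (gt_mem_nhds (by positivity)))
    obtain ⟨m, hmA, hmB⟩ := (hA.and hB).exists
    rw [lt_min_iff] at hmB
    obtain ⟨hmB1, hmB2⟩ := hmB
    have hcellE : ∀ l, (cell (h m) l ∩ E).Nonempty →
        Metric.closedBall (center (h m) l) (d * h m) ⊆ U := by
      rintro l ⟨x, hx1, hx2⟩ z hz
      have h1 := cell_subset (h m) (hpos m) l hx1
      rw [Metric.mem_closedBall] at h1 hz
      apply hρU
      refine Metric.mem_cthickening_of_dist_le z x ρ E hx2 ?_
      have := dist_triangle z (center (h m) l) x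
      rw [dist_comm (center (h m) l)] at this
      linarith
    have hfin : {l : Fin d → ℤ | (cell (h m) l ∩ E).Nonempty}.Finite :=
      finite_of_volume (h m) (hpos m) U hUfin _ fun l hl x hx =>
        hcellE l hl (cell_subset (h m) (hpos m) l hx)
    set J : Finset (Fin d → ℤ) := hfin.toFinset with hJ
    have hJmem : ∀ l, l ∈ J ↔ (cell (h m) l ∩ E).Nonempty := fun l => by
      rw [hJ, Set.Finite.mem_toFinset]; rfl
    obtain ⟨Sf, hSf1, hSf2⟩ := hall m J fun l hl => hcellE l ((hJmem l).mp hl)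
    have hEJ : volume E ≤ (J.card : ENNReal) * ENNReal.ofReal (h m ^ d) := by
      have hcov : E ⊆ ⋃ l ∈ J, cell (h m) l := by
        intro x hx
        obtain ⟨l, hl⟩ := exists_cell (h m) (hpos m) x
        simp only [mem_iUnion]
        exact ⟨l, (hJmem l).mpr ⟨x, hl, hx⟩, hl⟩
      refine (measure_mono hcov).trans ((measure_biUnion_finset_le _ _).trans ?_)
      simp only [volume_cell (h m) (hpos m), Finset.sum_const, nsmul_eq_mul]
      exact le_refl _
    have hSfv : (Sf.card : ENNReal) * ENNReal.ofReal (h m ^ d)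
        ≤ volume (Metric.cthickening ε S) := by
      refine card_mul_le_volume (h m) (hpos m) _ Sf fun k hk x hx => ?_
      obtain ⟨l, hlJ, hkl⟩ := hSf1 k hk
      obtain ⟨e, he1, he2⟩ := (hJmem l).mp hlJ
      have h1 := cell_subset (h m) (hpos m) l he1
      rw [Metric.mem_closedBall, dist_comm] at h1
      obtain ⟨s, hs, hds⟩ := hmA k l hkl ⟨e, he2, h1⟩
      refine Metric.mem_cthickening_of_dist_le x s ε S hs ?_
      have h2 := cell_subset (h m) (hpos m) k hx
      rw [Metric.mem_closedBall] at h2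
      have := dist_triangle x (center (h m) k) s
      linarith
    calc volume (Metric.ball (0 : Euc d) (δ - ε)) * volume E
        ≤ volume (Metric.ball (0 : Euc d) (δ - d * h m))
            * ((J.card : ENNReal) * ENNReal.ofReal (h m ^ d)) := by
          gcongr
          linarith
      _ ≤ volume U * ((Sf.card : ENNReal) * ENNReal.ofReal (h m ^ d)) := hSf2
      _ ≤ volume U * volume (Metric.cthickening ε S) := by gcongr
  -- let ε tend to zero
  have hR : Tendsto (fun ε => volume U * volume (Metric.cthickening ε S)) (𝓝[>] 0)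
      (𝓝 (volume U * volume S)) := by
    refine ENNReal.Tendsto.const_mul ?_ (Or.inr hUfin)
    exact (tendsto_measure_cthickening_of_isCompact hScomp).mono_left nhdsWithin_le_nhds
  have hL : Tendsto (fun ε => volume (Metric.ball (0 : Euc d) (δ - ε)) * volume E) (𝓝[>] 0)
      (𝓝 (volume (Metric.ball (0 : Euc d) δ) * volume E)) := by
    have hEfin : volume E ≠ ⊤ := hE.measure_lt_top.ne
    refine ENNReal.Tendsto.mul_const ?_ (Or.inr hEfin)
    have h1 : ∀ r : ℝ, 0 < r → volume (Metric.ball (0 : Euc d) r)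
        = ENNReal.ofReal (r ^ Module.finrank ℝ (Euc d)) * volume (Metric.ball (0 : Euc d) 1) :=
      fun r hr => Measure.addHaar_ball_of_pos volume 0 hr
    rw [h1 δ hδ]
    have h2 : Tendsto (fun ε : ℝ => ENNReal.ofReal ((δ - ε) ^ Module.finrank ℝ (Euc d))
        * volume (Metric.ball (0 : Euc d) 1)) (𝓝[>] 0)
        (𝓝 (ENNReal.ofReal (δ ^ Module.finrank ℝ (Euc d)) * volume (Metric.ball (0 : Euc d) 1))) := by
      refine ENNReal.Tendsto.mul_const ?_ (Or.inr measure_ball_lt_top.ne)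
      refine ENNReal.tendsto_ofReal ?_
      have hc : Continuous fun ε : ℝ => (δ - ε) ^ Module.finrank ℝ (Euc d) := by fun_prop
      have := (hc.tendsto 0).mono_left (nhdsWithin_le_nhds (s := Ioi (0:ℝ)))
      simpa using this
    refine h2.congr' ?_
    have h3 : ∀ᶠ ε : ℝ in 𝓝[>] 0, ε < δ := nhdsWithin_le_nhds (gt_mem_nhds hδ)
    filter_upwards [h3] with ε hε
    exact (h1 (δ - ε) (by linarith)).symm
  exact le_of_tendsto_of_tendsto hL hR (by
    filter_upwards [self_mem_nhdsWithin] with ε hε using key ε hε)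

/-- The limit map and the limit relation. -/
theorem limit_exists {d : ℕ} (hd : 0 < d) (U : Set (Euc d)) (hU : IsOpen U) (hUne : U.Nonempty)
    (hUfin : volume U ≠ ⊤) (δ : ℝ) (hδ : 0 < δ) :
    ∃ (F : Euc d → Euc d) (Γ : Set (Euc d × Euc d)), FNE F ∧ (∀ x, ‖x - F x‖ ≤ δ) ∧
      (∀ y, ∃ x, F x = y ∧ ∀ z ∈ Γ,
        ‖z.2 - (x - y)‖ ^ 2 / 2 ≤ inner ℝ (z.2 - (x - y)) (z.1 - x)) ∧
      ∀ E : Set (Euc d), IsCompact E → E ⊆ U →
        volume (Metric.ball (0 : Euc d) δ) * volume E ≤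
          volume U * volume (Prod.snd '' (Γ ∩ (E ×ˢ Metric.closedBall 0 δ))) := by
  classical
  have hd' : (0:ℝ) < d := by exact_mod_cast hd
  obtain ⟨x0, hx0⟩ := hUne
  obtain ⟨r, hr, hrU⟩ := Metric.isOpen_iff.mp hU x0 hx0
  set h0 : ℝ := min (r / (4 * d)) (δ / d) with hh0
  have hh0pos : 0 < h0 := by positivity
  set h : ℕ → ℝ := fun m => h0 / ((m:ℝ) + 1) with hh
  have hpos : ∀ m, 0 < h m := fun m => by simp only [hh]; positivity
  have hle : ∀ m, h m ≤ h0 := fun m => by
    simp only [hh]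
    exact div_le_self hh0pos.le (by linarith [(Nat.cast_nonneg m : (0:ℝ) ≤ m)])
  have hlim : Tendsto h atTop (𝓝 0) := by
    have h1 : Tendsto (fun m : ℕ => h0 * (1 / ((m:ℝ) + 1))) atTop (𝓝 (h0 * 0)) :=
      (tendsto_one_div_add_atTop_nhds_zero_nat).const_mul h0
    rw [mul_zero] at h1
    refine h1.congr fun m => ?_
    simp only [hh]; ring
  have hne : ∀ m, ∃ l : Fin d → ℤ, Metric.closedBall (center (h m) l) (d * h m) ⊆ U := by
    intro m
    obtain ⟨l, hl⟩ := exists_cell (h m) (hpos m) x0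
    refine ⟨l, fun z hz => hrU ?_⟩
    have h1 := cell_subset (h m) (hpos m) l hl
    rw [Metric.mem_closedBall] at h1 hz
    rw [Metric.mem_ball]
    have h2 := dist_triangle z (center (h m) l) x0
    rw [dist_comm (center (h m) l)] at h2
    have h3 : h m ≤ r / (4 * d) := (hle m).trans (min_le_left _ _)
    rw [le_div_iff₀ (by positivity)] at h3
    nlinarith
  have hne' : ∀ m, ∃ k : Fin d → ℤ, ‖center (h m) k‖ ≤ δ := by
    intro m
    obtain ⟨k, hk⟩ := exists_cell (h m) (hpos m) (0 : Euc d)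
    refine ⟨k, ?_⟩
    have h1 := cell_subset (h m) (hpos m) k hk
    rw [Metric.mem_closedBall, dist_eq_norm, zero_sub, norm_neg] at h1
    have h3 : h m ≤ δ / d := (hle m).trans (min_le_right _ _)
    rw [le_div_iff₀ (by positivity)] at h3
    linarith
  choose F own hF1 hF2 hF3 hF4 hF5 using fun m => scale U hUfin δ (h m) (hpos m) (hne m) (hne' m)
  set 𝒰 : Ultrafilter ℕ := hyperfilter ℕ with h𝒰
  have h𝒰le : (𝒰 : Filter ℕ) ≤ atTop := by
    rw [← Nat.cofinite_eq_atTop]; exact hyperfilter_le_cofinite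
  have hul : ∀ (u : ℕ → Euc d) (a : Euc d), (∀ m, ‖a - u m‖ ≤ δ) → ∃ l, Tendsto u 𝒰 (𝓝 l) := by
    intro u a hu
    obtain ⟨l, _, hl⟩ := exists_ultra_limit 𝒰 u (Metric.closedBall a δ) (isCompact_closedBall _ _)
      (Eventually.of_forall fun m => by
        rw [Metric.mem_closedBall, dist_comm, dist_eq_norm]; exact hu m)
    exact ⟨l, hl⟩
  choose G hG using fun x => hul (fun m => F m x) x (fun m => hF2 m x)
  refine ⟨G, limRel 𝒰 h own, fun x y => ?_, fun x => ?_, fun y => ?_, fun E hE hEU =>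
    limRel_volume 𝒰 h𝒰le h hpos hlim own U hU hUfin δ hδ hF4 hF5 E hE hEU⟩
  · have h1 : Tendsto (fun m => ‖F m x - F m y‖ ^ 2) 𝒰 (𝓝 (‖G x - G y‖ ^ 2)) :=
      (((hG x).sub (hG y)).norm).pow 2
    have h2 : Tendsto (fun m => inner ℝ (F m x - F m y) (x - y)) 𝒰
        (𝓝 (inner ℝ (G x - G y) (x - y))) :=
      ((hG x).sub (hG y)).inner tendsto_const_nhds
    exact le_of_tendsto_of_tendsto' h1 h2 fun m => hF1 m x y
  · have h1 : Tendsto (fun m => ‖x - F m x‖) 𝒰 (𝓝 (‖x - G x‖)) :=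
      (tendsto_const_nhds.sub (hG x)).norm
    exact le_of_tendsto' h1 fun m => hF2 m x
  · choose x hx1 hx2 using fun m => hF3 m y
    obtain ⟨l, hl⟩ := hul x y (fun m => by
      have := hF2 m (x m)
      rw [hx1 m, norm_sub_rev] at this
      exact this)
    refine ⟨l, ?_, ?_⟩
    · have h1 : Tendsto (fun m => ‖l - x m‖) 𝒰 (𝓝 0) := by
        have := (tendsto_const_nhds (x := l)).sub hl
        rw [sub_self] at this
        simpa using this.norm
      have h2 : Tendsto (fun m => ‖F m l - y‖) 𝒰 (𝓝 0) := by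
        refine squeeze_zero (fun _ => norm_nonneg _) (fun m => ?_) h1
        have h3 := (hF1 m).lipschitz.dist_le_mul l (x m)
        rw [dist_eq_norm, dist_eq_norm, NNReal.coe_one, one_mul, hx1 m] at h3
        exact h3
      have h3 : Tendsto (fun m => ‖F m l - y‖) 𝒰 (𝓝 ‖G l - y‖) :=
        ((hG l).sub tendsto_const_nhds).norm
      have h4 := tendsto_nhds_unique h3 h2
      exact sub_eq_zero.mp (norm_eq_zero.mp h4)
    · intro z hz
      by_contra hcon
      push Not at hcon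
      set g : Euc d × Euc d × Euc d → ℝ := fun w =>
        inner ℝ (w.2.2 - (w.1 - y)) (w.2.1 - w.1) - ‖w.2.2 - (w.1 - y)‖ ^ 2 / 2 with hg
      have hgc : Continuous g := by
        simp only [hg]
        fun_prop
      have hneg : g (l, z.1, z.2) < 0 := by
        simp only [hg]; linarith
      obtain ⟨ε, hε, hball⟩ := Metric.isOpen_iff.mp (isOpen_Iio.preimage hgc) (l, z.1, z.2) hneg
      have e1 : ∀ᶠ m in (𝒰 : Filter ℕ), dist (x m) l < ε :=
        hl.eventually (Metric.ball_mem_nhds l hε)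
      obtain ⟨m, hm1, hm2⟩ := (e1.and (hz ε hε)).exists
      obtain ⟨k, l', hkl, h1, h2⟩ := hm2
      have h3 : (x m, center (h m) l', center (h m) k) ∈ Metric.ball (l, z.1, z.2) ε := by
        rw [Metric.mem_ball, Prod.dist_eq, Prod.dist_eq]
        simp only [max_lt_iff]
        exact ⟨hm1, h1, h2⟩
      have h4 : g (x m, center (h m) l', center (h m) k) < 0 := hball h3
      have h5 := hx2 m k l' hkl
      simp only [hg] at h4
      linarith

end Pool.Agent.H93.PH
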