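import Mathlib
import Pool.Agent.H93.PH.Limit
import Pool.Agent.H93.PH.Assemble

set_option autoImplicit false
set_option linter.unusedSectionVars false

open Filter Topology Set MeasureTheory

namespace Pool.Agent.H93.PH

open Pool.Agent.H15

theorem fne_compl {d : ℕ} {F : Euc d → Euc d} (hF : FNE F) : FNE fun x => x - F x := by
  intro x y
  have h := hF x y
  have e1 : (x - F x) - (y - F y) = (x - y) - (F x - F y) := by abel
  simp only [e1]
  generalize hb : x - y = b at h ⊢
  generalize ha : F x - F y = a at h ⊢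
  rw [norm_sub_sq_real, inner_sub_left, real_inner_self_eq_norm_sq]
  rw [real_inner_comm] at h
  rw [real_inner_comm b a]
  linarith

/-- Sharp collapse of an open set: the volume of `U` only has to be smaller than the volume of the
ball of radius `δ`. -/
theorem collapse_sharp {d : ℕ} (hd : 0 < d) (U : Set (Euc d)) (hU : IsOpen U) (δ : ℝ) (hδ : 0 < δ)
    (hvol : volume U < volume (Metric.ball (0 : Euc d) δ)) :
    ∃ F : Euc d → Euc d, FNE F ∧ (∀ x, ‖x - F x‖ ≤ δ) ∧ ∀ y, ∃ x, F x = y ∧ x ∉ U := by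
  classical
  by_cases hUne : U.Nonempty
  swap
  · rw [Set.not_nonempty_iff_eq_empty] at hUne
    refine ⟨id, fun x y => ?_, fun x => ?_, fun y => ⟨y, rfl, by rw [hUne]; exact notMem_empty _⟩⟩
    · simp only [id]
      rw [real_inner_self_eq_norm_sq]
    · simp only [id, sub_self, norm_zero]
      exact hδ.le
  have hUfin : volume U ≠ ⊤ := hvol.ne_top
  obtain ⟨F, Γ, hF, hFn, hcon, hmeas⟩ := limit_exists hd U hU hUne hUfin δ hδ
  have hL : LipschitzWith 1 F := hF.lipschitz
  have hL' : LipschitzWith 1 (fun x => x - F x) := (fne_compl hF).lipschitz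
  refine ⟨F, hF, hFn, ?_⟩
  -- the contact set
  set C : Set (Euc d) := {x | ∀ z ∈ Γ,
    ‖z.2 - (x - F x)‖ ^ 2 / 2 ≤ inner ℝ (z.2 - (x - F x)) (z.1 - x)} with hC
  have hFc : Continuous F := hL.continuous
  have hCclosed : IsClosed C := by
    have : C = ⋂ z ∈ Γ, {x | ‖z.2 - (x - F x)‖ ^ 2 / 2 ≤ inner ℝ (z.2 - (x - F x)) (z.1 - x)} := by
      ext x; simp [hC]
    rw [this]
    refine isClosed_biInter fun z _ => isClosed_le ?_ ?_
    · fun_prop
    · fun_prop
  have hnull : volume (U ∩ C) = 0 := by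
    by_contra hne
    have hpos : 0 < volume (U ∩ C) := pos_iff_ne_zero.mpr hne
    have hmE : MeasurableSet (U ∩ C) := hU.measurableSet.inter hCclosed.measurableSet
    obtain ⟨E, hEsub, hEc, hEpos⟩ := hmE.exists_lt_isCompact hpos
    have h1 := hmeas E hEc (hEsub.trans inter_subset_left)
    have h2 : Prod.snd '' (Γ ∩ (E ×ˢ Metric.closedBall 0 δ)) ⊆ (fun x => x - F x) '' E := by
      rintro p ⟨⟨x, p'⟩, ⟨hz, hx, _⟩, rfl⟩
      refine ⟨x, hx, ?_⟩
      have h3 := (hEsub hx).2 _ hz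
      simp only [sub_self, inner_zero_right] at h3
      have h4 : ‖p' - (x - F x)‖ = 0 := by
        have := norm_nonneg (p' - (x - F x))
        nlinarith
      exact (sub_eq_zero.mp (norm_eq_zero.mp h4)).symm
    have h3 : volume (Metric.ball (0 : Euc d) δ) * volume E ≤ volume U * volume E :=
      h1.trans (mul_le_mul_right ((measure_mono h2).trans (volume_image_le hL' E)) _)
    have hEfin : volume E ≠ ⊤ := hEc.measure_lt_top.ne
    have h4 : volume (Metric.ball (0 : Euc d) δ) ≤ volume U :=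
      (ENNReal.mul_le_mul_iff_left hEpos.ne' hEfin).mp h3
    exact absurd hvol (not_lt.mpr h4)
  have hnull2 : volume (F '' (U ∩ C)) = 0 :=
    le_antisymm ((volume_image_le hL _).trans hnull.le) bot_le
  have hdense : Dense (F '' (U ∩ C))ᶜ := by
    have h : ∀ᵐ a, a ∉ F '' (U ∩ C) := measure_eq_zero_iff_ae_notMem.mp hnull2
    exact Measure.dense_of_ae h
  have hsub : (F '' (U ∩ C))ᶜ ⊆ F '' Uᶜ := by
    intro y hy
    obtain ⟨x, hx1, hx2⟩ := hcon y
    refine ⟨x, fun hxU => hy ⟨x, ⟨hxU, ?_⟩, hx1⟩, hx1⟩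
    intro z hz
    rw [hx1]
    exact hx2 z hz
  have hcl : IsClosed (F '' Uᶜ) := isClosedMap_of_near hFc δ hFn _ hU.isClosed_compl
  have huniv : F '' Uᶜ = univ := by
    have h1 : Dense (F '' Uᶜ) := hdense.mono hsub
    rw [← hcl.closure_eq]
    exact h1.closure_eq
  intro y
  have : y ∈ F '' Uᶜ := by rw [huniv]; exact mem_univ y
  obtain ⟨x, hx, hxy⟩ := this
  exact ⟨x, hxy, hx⟩

/-- Sharp collapse of a compact set: if the volume of `K` is smaller than the volume of the ball of
radius `δ`, then some 1-Lipschitz map moves no point by more than `δ` and maps `K` into finitely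
many convex hulls of `d` points. -/
theorem collapse_compact {d : ℕ} (hd : 0 < d) (K : Set (Euc d)) (hK : IsCompact K) (δ : ℝ)
    (hδ : 0 < δ) (hvol : volume K < volume (Metric.ball (0 : Euc d) δ)) :
    ∃ f : Euc d → Euc d, LipschitzWith 1 f ∧ (∀ x, ‖x - f x‖ ≤ δ) ∧
      ∃ S : Finset (Fin d → Euc d), f '' K ⊆ ⋃ s ∈ S, convexHull ℝ (Set.range s) := by
  classical
  have hd' : (0:ℝ) < d := by exact_mod_cast hd
  -- a smaller radius
  have hball : ∀ r : ℝ, 0 < r → volume (Metric.ball (0 : Euc d) r)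
      = ENNReal.ofReal (r ^ Module.finrank ℝ (Euc d)) * volume (Metric.ball (0 : Euc d) 1) :=
    fun r hr => Measure.addHaar_ball_of_pos volume 0 hr
  obtain ⟨δ', hδ', hδ'pos, hvol'⟩ : ∃ δ' < δ, 0 < δ' ∧
      volume K < volume (Metric.ball (0 : Euc d) δ') := by
    have h2 : Tendsto (fun r : ℝ => ENNReal.ofReal (r ^ Module.finrank ℝ (Euc d))
        * volume (Metric.ball (0 : Euc d) 1)) (𝓝[<] δ)
        (𝓝 (ENNReal.ofReal (δ ^ Module.finrank ℝ (Euc d)) * volume (Metric.ball (0 : Euc d) 1))) := by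
      refine ENNReal.Tendsto.mul_const ?_ (Or.inr measure_ball_lt_top.ne)
      refine ENNReal.tendsto_ofReal ?_
      have hc : Continuous fun r : ℝ => r ^ Module.finrank ℝ (Euc d) := by fun_prop
      exact (hc.tendsto δ).mono_left nhdsWithin_le_nhds
    rw [← hball δ hδ] at h2
    have h3 := h2.eventually (lt_mem_nhds hvol)
    have h4 : ∀ᶠ r : ℝ in 𝓝[<] δ, 0 < r := nhdsWithin_le_nhds (lt_mem_nhds hδ)
    obtain ⟨r, ⟨hr1, hr2⟩, hr3⟩ := ((h3.and h4).and self_mem_nhdsWithin).exists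
    exact ⟨r, hr3, hr2, by rw [hball r hr2]; exact hr1⟩
  -- an open neighbourhood of small volume
  obtain ⟨U, hKU, hUo, hUv⟩ := Set.exists_isOpen_lt_of_lt K _ hvol'
  obtain ⟨F1, hF1, hF1n, hF1s⟩ := collapse_sharp hd U hUo δ' hδ'pos hUv
  have hL1 : LipschitzWith 1 F1 := hF1.lipschitz
  -- a neighbourhood of K with null frontier inside U
  obtain ⟨ρ, hρ, hρU⟩ := hK.exists_cthickening_subset_open hUo hKU
  obtain ⟨r, hr, hfr⟩ := exists_null_frontier_thickening (volume : Measure (Euc d)) K hρ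
  set W : Set (Euc d) := Metric.thickening r K with hW
  have hWo : IsOpen W := Metric.isOpen_thickening
  have hKW : K ⊆ W := Metric.self_subset_thickening hr.1 K
  have hWU : W ⊆ U := (Metric.thickening_subset_cthickening_of_le hr.2.le K).trans hρU
  have hWb : Bornology.IsBounded W := hK.isBounded.thickening
  have hfrc : IsCompact (frontier W) :=
    Metric.isCompact_of_isClosed_isBounded isClosed_frontier
      (hWb.closure.subset frontier_subset_closure)
  have hKfr : F1 '' K ⊆ F1 '' frontier W := by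
    rintro y ⟨x, hx, rfl⟩
    obtain ⟨x', hx', hx'U⟩ := hF1s (F1 x)
    have hpre : IsPreconnected (F1 ⁻¹' {F1 x}) := (hF1.convex_fiber (F1 x)).isPreconnected
    by_contra hcon
    have hsub : F1 ⁻¹' {F1 x} ⊆ W := by
      refine hpre.subset_of_closure_inter_subset hWo ⟨x, rfl, hKW hx⟩ ?_
      rintro z ⟨hz1, hz2⟩
      by_contra hzW
      have hzf : z ∈ frontier W := by
        rw [hWo.frontier_eq]
        exact ⟨hz1, hzW⟩
      exact hcon ⟨z, hzf, hz2⟩
    exact hx'U (hWU (hsub hx'))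
  have hN1c : IsCompact (F1 '' frontier W) := hfrc.image hL1.continuous
  -- second step
  set δ2 : ℝ := (δ - δ') / d with hδ2
  have hδ2pos : 0 < δ2 := div_pos (by linarith) hd'
  set κ : ENNReal := ENNReal.ofReal (δ2 ^ d / (8 * d) ^ d) with hκdef
  have hκ : κ ≠ 0 := by
    have : (0:ℝ) < δ2 ^ d / (8 * d) ^ d := by positivity
    simpa [hκdef] using this
  have hκmul : ENNReal.ofReal ((8 * d) ^ d) * κ = ENNReal.ofReal (δ2 ^ d) := by
    rw [hκdef, ← ENNReal.ofReal_mul (by positivity)]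
    congr 1
    field_simp
  have hN1v : volume (F1 '' frontier W) < κ := by
    refine lt_of_le_of_lt (volume_image_le hL1 _) ?_
    rw [hfr]
    exact pos_iff_ne_zero.mpr hκ
  obtain ⟨O, hOsub, hOo, hOv⟩ := Set.exists_isOpen_lt_of_lt _ _ hN1v
  obtain ⟨ρ', hρ', hρsub⟩ := hN1c.exists_cthickening_subset_open hOo hOsub
  obtain ⟨F2, hF2, hF2n, hF2s, L, hL0, hLl⟩ := collapse hd O δ2 (ρ' / 2) hδ2pos (by positivity) (by
    rw [← hκmul]; exact mul_le_mul_right hOv.le _)
  have hL2 : LipschitzWith 1 F2 := hF2.lipschitz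
  have hFL : LipschitzWith 1 (fun x => F2 (F1 x)) := by
    have := hL2.comp hL1
    rw [one_mul] at this
    exact this
  refine ⟨fun x => F2 (F1 x), hFL, fun x => ?_, ?_⟩
  · have e1 := hF1n x
    have e2 := hF2n (F1 x)
    have e3 : x - F2 (F1 x) = (x - F1 x) + (F1 x - F2 (F1 x)) := by abel
    rw [e3]
    have e4 := norm_add_le (x - F1 x) (F1 x - F2 (F1 x))
    have e5 : (d:ℝ) * δ2 = δ - δ' := by rw [hδ2]; field_simp
    linarith
  · have hKc : IsCompact ((fun x => F2 (F1 x)) '' K) := hK.image hFL.continuous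
    obtain ⟨R', hR'⟩ := hKc.isBounded.subset_closedBall (0 : Euc d)
    have hseg : ∀ l : Euc d × ℝ, ∃ s : Fin d → Euc d, l ∈ L →
        ∀ y : Euc d, inner ℝ l.1 y = l.2 → ‖y‖ ≤ R' → y ∈ convexHull ℝ (Set.range s) := by
      intro l
      by_cases hl : l ∈ L
      · obtain ⟨s, hs⟩ := hyperplane_subset_hull_of_pos hd l.1 (hL0 l hl) l.2 R'
        exact ⟨s, fun _ => hs⟩
      · exact ⟨fun _ => 0, fun h => absurd h hl⟩
    choose sg hsg using hseg
    refine ⟨L.image sg, ?_⟩
    rintro y ⟨x, hx, rfl⟩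
    have hyR : ‖F2 (F1 x)‖ ≤ R' := by
      have := hR' (mem_image_of_mem (fun x => F2 (F1 x)) hx)
      rwa [mem_closedBall_zero_iff] at this
    have hxN : F1 x ∈ F1 '' frontier W := hKfr (mem_image_of_mem F1 hx)
    obtain ⟨l, hl, hly⟩ := hLl (F1 x) (by
      have : Metric.closedBall (F1 x) (2 * (ρ' / 2)) ⊆ Metric.cthickening ρ' (F1 '' frontier W) := by
        have e : 2 * (ρ' / 2) = ρ' := by ring
        rw [e]
        exact Metric.closedBall_subset_cthickening hxN ρ'
      exact this.trans hρsub)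
    simp only [mem_iUnion, Finset.mem_image]
    exact ⟨sg l, ⟨l, hl, rfl⟩, hsg l hl _ hly hyR⟩

end Pool.Agent.H93.PH
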